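import Pool.Agent.Lib.PLC.Defs
import Pool.Agent.Lib.PLE.Genus

/-!
# From a good flow to a courteous colouring
-/

set_option autoImplicit false

namespace Pool.Agent.Lib.PLC

open Finset Pool.Agent.Lib.PLG Pool.Agent.Lib.PLE

/-- representative of the direction of a nonzero vector -/
def dir (v : F9) : Fin 4 :=
  if v.1 = 0 then 0 else if v.2 = 0 then 1 else if v.1 = v.2 then 2 else 3

/-- a linear functional which vanishes exactly on the direction `i` -/
def fun4 (i : Fin 4) (v : F9) : ZMod 3 :=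
  match i with
  | 0 => v.1
  | 1 => v.2
  | 2 => v.1 - v.2
  | 3 => v.1 + v.2

/-- a vector of direction `i` -/
def vec (i : Fin 4) : F9 :=
  match i with
  | 0 => (0, 1)
  | 1 => (1, 0)
  | 2 => (1, 1)
  | 3 => (1, -1)

lemma dir_neg (v : F9) : dir (-v) = dir v := by revert v; decide

lemma fun4_eq_zero (i : Fin 4) (v : F9) (hv : v ≠ 0) : fun4 i v = 0 ↔ dir v = i := by
  revert i v; decide

lemma dir_eq_iff (i : Fin 4) (v : F9) (hv : v ≠ 0) (h : v ≠ vec i) (h' : v ≠ - vec i) :
    dir v ≠ i := by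
  revert i v; decide

lemma fun4_add (i : Fin 4) (v w : F9) : fun4 i (v + w) = fun4 i v + fun4 i w := by
  fin_cases i <;> simp [fun4] <;> ring

lemma fun4_zero (i : Fin 4) : fun4 i 0 = 0 := by revert i; decide

lemma fun4_sum {ι : Type*} (i : Fin 4) (s : Finset ι) (g : ι → F9) :
    fun4 i (∑ x ∈ s, g x) = ∑ x ∈ s, fun4 i (g x) := by
  classical
  induction s using Finset.induction_on with
  | empty => simp [fun4_zero]
  | insert a s ha ih => rw [sum_insert ha, sum_insert ha, fun4_add, ih]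

/-- In cut form: for every colour `i` every cut has two edges of other colours. -/
theorem good_colour {D : Type*} [Fintype D] [DecidableEq D] {G : CM D} (h : Good G) :
    ∃ c : D → Fin 4, (∀ d, c (G.α d) = c d) ∧
      ∀ i, ∀ S : Finset D, G.IsV S → S.Nonempty → S ≠ univ →
        2 ≤ ((G.bd S).filter (fun d => c d ≠ i)).card := by
  obtain ⟨f, hf1, hf2, hf3, hf4⟩ := h
  refine ⟨fun d => dir (f d), fun d => by simp only [hf1, dir_neg], ?_⟩
  intro i S hS hne hu
  show 2 ≤ ((G.bd S).filter (fun d => dir (f d) ≠ i)).card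
  obtain ⟨d0, hd0, hd1, hd2, hd3⟩ := hf4 S hS hne hu (vec i)
  have hmem : d0 ∈ (G.bd S).filter (fun d => dir (f d) ≠ i) := by
    rw [mem_filter, CM.mem_bd]
    exact ⟨⟨hd0, hd1⟩, dir_eq_iff i _ (hf2 d0) hd2 hd3⟩
  by_contra hlt
  have h1 : ((G.bd S).filter (fun d => dir (f d) ≠ i)).card = 1 := by
    have := card_pos.2 ⟨d0, hmem⟩
    omega
  rw [card_eq_one] at h1
  obtain ⟨d1, hd1'⟩ := h1
  have hd01 : d0 = d1 := by rw [hd1'] at hmem; exact mem_singleton.1 hmem
  -- the sum of the functional over S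
  have hsum : ∑ d ∈ S, fun4 i (f d) = 0 := by
    rw [← fun4_sum, hf3 S hS, fun4_zero]
  have hsplit : ∑ d ∈ S, fun4 i (f d) = ∑ d ∈ G.bd S, fun4 i (f d) +
      ∑ d ∈ S.filter (fun d => ¬ G.α d ∉ S), fun4 i (f d) := by
    unfold CM.bd
    exact (sum_filter_add_sum_filter_not S (fun d => G.α d ∉ S) _).symm
  have hin : ∑ d ∈ S.filter (fun d => ¬ G.α d ∉ S), fun4 i (f d) = 0 := by
    refine Finset.sum_involution (fun d _ => G.α d) ?_ ?_ ?_ ?_
    · intro d _
      rw [hf1, ← fun4_add, add_neg_cancel, fun4_zero]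
    · intro d _ _
      exact G.αne d
    · intro d hd
      rw [mem_filter, not_not] at hd ⊢
      rw [G.αα]
      exact ⟨hd.2, hd.1⟩
    · intro d _
      exact G.αα d
  have hbd : ∑ d ∈ G.bd S, fun4 i (f d) = fun4 i (f d0) := by
    have h2 : ∑ d ∈ (G.bd S).filter (fun d => dir (f d) ≠ i), fun4 i (f d) +
        ∑ d ∈ (G.bd S).filter (fun d => ¬ dir (f d) ≠ i), fun4 i (f d) =
        ∑ d ∈ G.bd S, fun4 i (f d) := sum_filter_add_sum_filter_not _ _ _
    rw [← h2, hd1', sum_singleton, ← hd01]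
    rw [sum_eq_zero, add_zero]
    intro d hd
    rw [mem_filter, not_not] at hd
    exact (fun4_eq_zero i _ (hf2 d)).2 hd.2
  rw [hsplit, hin, add_zero, hbd] at hsum
  rw [fun4_eq_zero i _ (hf2 d0)] at hsum
  exact (mem_filter.1 hmem).2 hsum

end Pool.Agent.Lib.PLC
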