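import Pool.Agent.Lib.PLG.Base

/-!
# The conclusion of the planar theorem, in cut form, for an arbitrary combinatorial map
-/

set_option autoImplicit false

namespace Pool.Agent.Lib.PLC

open Finset Pool.Agent.Lib.PLG

abbrev F9 : Type := ZMod 3 × ZMod 3

/-- `Good G`: a nowhere-zero flow with values in `ZMod 3 × ZMod 3` such that for every `p` the
edges with values outside `{p, -p}` connect the graph. -/
def Good {D : Type*} [Fintype D] [DecidableEq D] (G : CM D) : Prop :=
  ∃ f : D → F9, (∀ d, f (G.α d) = - f d) ∧ (∀ d, f d ≠ 0) ∧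
    (∀ S : Finset D, G.IsV S → ∑ d ∈ S, f d = 0) ∧
    ∀ S : Finset D, G.IsV S → S.Nonempty → S ≠ univ → ∀ p : F9,
      ∃ d ∈ S, G.α d ∉ S ∧ f d ≠ p ∧ f d ≠ -p

/-- at least two vertices -/
def Two {D : Type*} [Fintype D] [DecidableEq D] (G : CM D) : Prop :=
  ∃ S : Finset D, G.IsV S ∧ S.Nonempty ∧ S ≠ univ

end Pool.Agent.Lib.PLC
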