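import Pool.Agent.Lib.PLC.Colour
import Pool.Agent.Lib.PLE.Count

/-!
# From maps to graphs
-/

set_option autoImplicit false
set_option linter.unusedSectionVars false

universe u v

namespace Pool.Agent.Lib.PLC

open Finset Pool.Agent.Lib.PLG Pool.Agent.Lib.PLE

/-- the involution exchanging the two darts of every edge -/
def flipE (E : Type*) : Equiv.Perm (E × Bool) where
  toFun d := (d.1, !d.2)
  invFun d := (d.1, !d.2)
  left_inv d := by simp
  right_inv d := by simp

/-- the combinatorial map of a rotation system -/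
def mapOf {E : Type*} (σ : Equiv.Perm (E × Bool)) : CM (E × Bool) where
  σ := σ
  α := flipE E
  αα d := by simp [flipE]
  αne d := by
    intro h
    have := congrArg Prod.snd h
    simp [flipE] at this

lemma card_orbs_quot {D : Type*} [Fintype D] [DecidableEq D] (π : Equiv.Perm D) :
    (orbs π univ).card = Nat.card (Quotient (Equiv.Perm.SameCycle.setoid π)) := by
  classical
  rw [← Fintype.card_coe, ← Nat.card_eq_fintype_card]
  refine Nat.card_congr ?_
  refine Equiv.symm (Equiv.ofBijective (Quotient.lift (s := Equiv.Perm.SameCycle.setoid π)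
    (fun d => (⟨orb π d, mem_image_of_mem _ (mem_univ d)⟩ : {O // O ∈ orbs π univ})) ?_) ⟨?_, ?_⟩)
  · intro a b hab
    exact Subtype.ext (orb_eq hab)
  · intro a b
    induction a using Quotient.ind with
    | _ a =>
      induction b using Quotient.ind with
      | _ b =>
        intro h
        have h1 : orb π a = orb π b := congrArg Subtype.val h
        apply Quotient.sound
        show π.SameCycle a b
        rw [← mem_orb, h1]
        exact self_mem_orb π b
  · rintro ⟨O, hO⟩
    obtain ⟨d, _, rfl⟩ := mem_image.1 hO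
    exact ⟨Quotient.mk _ d, rfl⟩

lemma card_orbs_surj {D V : Type*} [Fintype D] [DecidableEq D] [Finite V] (π : Equiv.Perm D)
    (t : D → V) (ht : Function.Surjective t) (h : ∀ d d', t d = t d' ↔ π.SameCycle d d') :
    (orbs π univ).card = Nat.card V := by
  rw [card_orbs_quot]
  refine Nat.card_congr (Equiv.ofBijective (Quotient.lift (s := Equiv.Perm.SameCycle.setoid π)
    t (fun a b hab => (h a b).2 hab)) ⟨?_, ?_⟩)
  · intro a b
    induction a using Quotient.ind with
    | _ a =>
      induction b using Quotient.ind with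
      | _ b =>
        intro hh
        apply Quotient.sound
        exact (h a b).1 hh
  · intro x
    obtain ⟨d, hd⟩ := ht x
    exact ⟨Quotient.mk _ d, hd⟩

/-- The theorem for graphs, in cut form. -/
theorem final_cut
    (H : ∀ (D : Type u) [Fintype D] [DecidableEq D] (G : CM D), G.TEC → G.PL → Two G → Good G)
    {V : Type v} {E : Type u} [Finite V] [Fintype E] [DecidableEq E]
    (t : E × Bool → V) (σ : Equiv.Perm (E × Bool))
    (hσ : ∀ d d', t d = t d' ↔ σ.SameCycle d d')
    (hE : Nat.card E + 2 ≤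
      Nat.card V + Nat.card (Quotient (Equiv.Perm.SameCycle.setoid (σ * flipE E))))
    (h3 : ∀ S : Set V, S.Nonempty → Sᶜ.Nonempty →
      3 ≤ {e : E | ¬ (t (e, false) ∈ S ↔ t (e, true) ∈ S)}.ncard) :
    ∃ c : E → Fin 4, ∀ i, ∀ S : Set V, S.Nonempty → Sᶜ.Nonempty →
      2 ≤ {e : E | c e ≠ i ∧ ¬ (t (e, false) ∈ S ↔ t (e, true) ∈ S)}.ncard := by
  classical
  by_cases hV : ∃ S0 : Set V, S0.Nonempty ∧ S0ᶜ.Nonempty
  swap
  · refine ⟨fun _ => 0, fun i S hS hSc => ?_⟩
    exact absurd ⟨S, hS, hSc⟩ hV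
  obtain ⟨S0, hS0, hS0c⟩ := hV
  set G : CM (E × Bool) := mapOf σ with hG
  have hαdef : ∀ d : E × Bool, G.α d = (d.1, !d.2) := fun d => rfl
  -- vertices are unions of fibres of t
  have htσ : ∀ d, t (σ d) = t d := fun d =>
    (hσ _ _).2 (Equiv.Perm.SameCycle.refl σ d).apply_left
  have hIs : ∀ T : Set V, G.IsV (univ.filter (fun d => t d ∈ T)) := by
    intro T d
    rw [mem_filter, mem_filter]
    show _ ∧ t (σ d) ∈ T ↔ _
    rw [htσ]
    simp
  have hcl : ∀ S : Finset (E × Bool), G.IsV S → ∀ d d', t d = t d' → d ∈ S → d' ∈ S := by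
    intro S hS d d' hdd hd
    have h1 : Cl σ S := hS
    exact (h1.sc ((hσ d d').1 hdd)).1 hd
  -- every vertex has a dart
  have hsurj : Function.Surjective t := by
    intro x
    by_contra hx
    push Not at hx
    have h1 : ∃ y : V, y ≠ x := by
      obtain ⟨a, ha⟩ := hS0
      obtain ⟨b, hb⟩ := hS0c
      by_cases hax : a = x
      · refine ⟨b, fun hb2 => hb ?_⟩
        rw [hb2, ← hax]; exact ha
      · exact ⟨a, hax⟩
    obtain ⟨y, hy⟩ := h1
    have h4 := h3 {x} ⟨x, rfl⟩ ⟨y, hy⟩
    have h5 : {e : E | ¬ (t (e, false) ∈ ({x} : Set V) ↔ t (e, true) ∈ ({x} : Set V))} = ∅ := by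
      ext e
      simp only [Set.mem_ofPred_eq, Set.mem_singleton_iff, Set.mem_empty_iff_false, iff_false,
        not_not]
      exact ⟨fun h => absurd h (hx _), fun h => absurd h (hx _)⟩
    rw [h5, Set.ncard_empty] at h4
    omega
  -- boundary darts and crossing edges
  have hcross : ∀ (T : Set V) (P : E → Prop), ∀ S : Finset (E × Bool),
      (∀ d, d ∈ S ↔ t d ∈ T) →
      {e : E | P e ∧ ¬ (t (e, false) ∈ T ↔ t (e, true) ∈ T)}.ncard =
        ((G.bd S).filter (fun d => P d.1)).card := by
    intro T P S hST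
    have h1 : {e : E | P e ∧ ¬ (t (e, false) ∈ T ↔ t (e, true) ∈ T)} =
        ((((G.bd S).filter (fun d => P d.1)).image Prod.fst : Finset E) : Set E) := by
      ext e
      rw [Set.mem_ofPred_eq, mem_coe, mem_image]
      constructor
      · rintro ⟨hP, hcr⟩
        by_cases hf : t (e, false) ∈ T
        · have htr : t (e, true) ∉ T := fun h => hcr ⟨fun _ => h, fun _ => hf⟩
          refine ⟨(e, false), ?_, rfl⟩
          rw [mem_filter, CM.mem_bd, hST, hST]
          exact ⟨⟨hf, htr⟩, hP⟩
        · have htr : t (e, true) ∈ T := by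
            by_contra h
            exact hcr ⟨fun h' => absurd h' hf, fun h' => absurd h' h⟩
          refine ⟨(e, true), ?_, rfl⟩
          rw [mem_filter, CM.mem_bd, hST, hST]
          exact ⟨⟨htr, hf⟩, hP⟩
      · rintro ⟨⟨e', b⟩, hd, rfl⟩
        rw [mem_filter, CM.mem_bd, hST, hST, hαdef] at hd
        refine ⟨hd.2, fun hiff => ?_⟩
        cases b
        · exact hd.1.2 (hiff.1 hd.1.1)
        · exact hd.1.2 (hiff.2 hd.1.1)
    rw [h1, Set.ncard_coe_finset, card_image_of_injOn]
    rintro ⟨e1, b1⟩ hd1 ⟨e2, b2⟩ hd2 heq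
    simp only at heq
    subst heq
    rw [mem_coe, mem_filter, CM.mem_bd, hαdef] at hd1 hd2
    by_contra hne
    have hb : b2 = !b1 := by
      cases b1 <;> cases b2 <;> simp_all
    subst hb
    exact hd1.1.2 hd2.1.1
  have htrace : ∀ S : Finset (E × Bool), G.IsV S → ∀ d, d ∈ S ↔ t d ∈ t '' (S : Set (E × Bool)) := by
    intro S hS d
    constructor
    · intro hd; exact ⟨d, hd, rfl⟩
    · rintro ⟨d', hd', hdd⟩
      exact hcl S hS d' d hdd hd'
  have hTEC : G.TEC := by
    intro S hS hne hu
    have h1 := hcross (t '' (S : Set (E × Bool))) (fun _ => True) S (htrace S hS)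
    have h2 : (G.bd S).card = {e : E | True ∧ ¬ (t (e, false) ∈ t '' (S : Set (E × Bool)) ↔
        t (e, true) ∈ t '' (S : Set (E × Bool)))}.ncard := by
      rw [h1]
      congr 1
      ext d
      simp
    rw [h2]
    have h4 : {e : E | True ∧ ¬ (t (e, false) ∈ t '' (S : Set (E × Bool)) ↔
        t (e, true) ∈ t '' (S : Set (E × Bool)))} = {e : E | ¬ (t (e, false) ∈
        t '' (S : Set (E × Bool)) ↔ t (e, true) ∈ t '' (S : Set (E × Bool)))} := by
      ext e; simp
    rw [h4]
    apply h3
    · obtain ⟨d, hd⟩ := hne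
      exact ⟨t d, d, hd, rfl⟩
    · have : ∃ d, d ∉ S := by
        by_contra hh
        push Not at hh
        exact hu (eq_univ_of_forall hh)
      obtain ⟨d, hd⟩ := this
      exact ⟨t d, fun hh => hd ((htrace S hS d).2 hh)⟩
  have hTwo : Two G := by
    obtain ⟨a, ha⟩ := hS0
    obtain ⟨b, hb⟩ := hS0c
    obtain ⟨da, hda⟩ := hsurj a
    obtain ⟨db, hdb⟩ := hsurj b
    refine ⟨univ.filter (fun d => t d ∈ S0), hIs S0, ⟨da, ?_⟩, fun hu => ?_⟩
    · rw [mem_filter, hda]; exact ⟨mem_univ _, ha⟩
    · have : db ∈ univ.filter (fun d => t d ∈ S0) := by rw [hu]; exact mem_univ _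
      rw [mem_filter, hdb] at this
      exact hb this.2
  have hconn : ∀ S : Finset (E × Bool), (∀ d, G.σ d ∈ S ↔ d ∈ S) → (∀ d, G.α d ∈ S ↔ d ∈ S) →
      S = ∅ ∨ S = univ := by
    intro S h1 h2
    by_contra hno
    push Not at hno
    have h4 := hTEC S h1 hno.1 hno.2
    have h5 : G.bd S = ∅ := by
      rw [eq_empty_iff_forall_notMem]
      intro d hd
      rw [CM.mem_bd] at hd
      exact hd.2 ((h2 d).2 hd.1)
    rw [h5, card_empty] at h4
    omega
  have hPL : G.PL := by
    refine PL_of_euler hconn ?_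
    have e1 : (orbs G.σ univ).card = Nat.card V := card_orbs_surj σ t hsurj hσ
    have e2 : (orbs G.φ univ).card =
        Nat.card (Quotient (Equiv.Perm.SameCycle.setoid (σ * flipE E))) := card_orbs_quot _
    have e3 : (orbs G.α univ).card = Nat.card E := by
      have h1 := orbs_const (π := G.α) (S := univ) (fun d => by simp) 2
        (fun d _ => orb_alpha_card d)
      rw [card_univ, Fintype.card_prod, Fintype.card_bool] at h1
      rw [Nat.card_eq_fintype_card]
      have h2 : ((Fintype.card E * 2 : ℕ) : ℚ) = ((2 * (orbs G.α univ).card : ℕ) : ℚ) := by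
        rw [h1]; push_cast; ring
      have h4 := Nat.cast_injective h2
      omega
    rw [e1, e2, e3]
    exact hE
  obtain ⟨c, hc1, hc2⟩ := good_colour (H _ G hTEC hPL hTwo)
  refine ⟨fun e => c (e, false), fun i S hS hSc => ?_⟩
  have hcc : ∀ d : E × Bool, c (d.1, false) = c d := by
    rintro ⟨e, b⟩
    cases b
    · rfl
    · exact (hc1 (e, false)).symm
  have h1 := hcross S (fun e => c (e, false) ≠ i) (univ.filter (fun d => t d ∈ S)) (by
    intro d; rw [mem_filter]; simp)
  rw [h1]
  refine le_trans (hc2 i _ (hIs S) ?_ ?_) (le_of_eq ?_)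
  · obtain ⟨a, ha⟩ := hS
    obtain ⟨d, hd⟩ := hsurj a
    exact ⟨d, by rw [mem_filter, hd]; exact ⟨mem_univ _, ha⟩⟩
  · intro hu
    obtain ⟨b, hb⟩ := hSc
    obtain ⟨d, hd⟩ := hsurj b
    have : d ∈ univ.filter (fun d => t d ∈ S) := by rw [hu]; exact mem_univ _
    rw [mem_filter, hd] at this
    exact hb this.2
  · congr 1
    ext d
    simp only [mem_filter, hcc]

end Pool.Agent.Lib.PLC
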